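import Mathlib

/-! Project LW (helper871), job RATIO: `c / φ(c)` is bounded for most `c`. -/

set_option autoImplicit false

namespace Pool.Agent.Y888.LW

open Finset

theorem tot (c : ℕ) : (c : ℝ) ≤ (Nat.totient c : ℝ) *
    Real.exp (2 * ∑ p ∈ c.primeFactors, (1 : ℝ) / p) := by
  have h1 : (Nat.totient c : ℝ) = c * ∏ p ∈ c.primeFactors, (1 - (p : ℝ)⁻¹) := by
    have h := Nat.totient_eq_mul_prod_factors c
    have h' := congrArg (fun x : ℚ => (x : ℝ)) h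
    push_cast at h'
    exact h'
  rw [h1, mul_sum, Real.exp_sum, mul_assoc, ← prod_mul_distrib]
  have h2 : (1 : ℝ) ≤ ∏ p ∈ c.primeFactors, ((1 - (p : ℝ)⁻¹) * Real.exp (2 * (1 / (p : ℝ)))) := by
    refine (prod_const_one (s := c.primeFactors) (M := ℝ)).symm.le.trans ?_
    refine prod_le_prod (fun _ _ => zero_le_one) fun p hp => ?_
    have hp2 : (2 : ℝ) ≤ p := by exact_mod_cast (Nat.prime_of_mem_primeFactors hp).two_le
    have hx0 : (0 : ℝ) ≤ (p : ℝ)⁻¹ := by positivity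
    have hx1 : (p : ℝ)⁻¹ ≤ 1 / 2 := by
      rw [← one_div]
      exact one_div_le_one_div_of_le (by norm_num) hp2
    rw [one_div]
    have h4 := Real.add_one_le_exp (2 * (p : ℝ)⁻¹)
    have h5 : (1 - (p : ℝ)⁻¹) * (2 * (p : ℝ)⁻¹ + 1) ≤ (1 - (p : ℝ)⁻¹) *
        Real.exp (2 * (p : ℝ)⁻¹) := mul_le_mul_of_nonneg_left h4 (by linarith)
    nlinarith [mul_nonneg hx0 (by linarith : (0 : ℝ) ≤ 1 - 2 * (p : ℝ)⁻¹)]
  calc (c : ℝ) = c * 1 := (mul_one _).symm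
    _ ≤ _ := mul_le_mul_of_nonneg_left h2 (Nat.cast_nonneg c)

theorem sq_sum (H : ℕ) : ∑ d ∈ Icc 2 H, (1 : ℝ) / ((d : ℝ) * d) ≤ 1 := by
  have h : ∀ n : ℕ, ∑ d ∈ Icc 2 (n + 1), (1 : ℝ) / ((d : ℝ) * d) ≤ 1 - 1 / ((n : ℝ) + 1) := by
    intro n
    induction n with
    | zero => simp
    | succ n ih =>
      rw [sum_Icc_succ_top (by omega)]
      have h1 : (0 : ℝ) < (n : ℝ) + 1 := by positivity
      have h2 : (0 : ℝ) < (n : ℝ) + 1 + 1 := by positivity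
      have h3 : (1 : ℝ) / (((n + 1 + 1 : ℕ) : ℝ) * ((n + 1 + 1 : ℕ) : ℝ)) ≤
          1 / ((n : ℝ) + 1) - 1 / ((n : ℝ) + 1 + 1) := by
        push_cast
        rw [div_sub_div _ _ h1.ne' h2.ne', div_le_div_iff₀ (by positivity) (by positivity)]
        nlinarith
      push_cast at h3 ⊢
      linarith
  rcases Nat.eq_zero_or_pos H with h0 | h0
  · subst h0; simp
  · obtain ⟨n, rfl⟩ : ∃ n, H = n + 1 := ⟨H - 1, by omega⟩
    have h1 := h n
    have h2 : (0 : ℝ) ≤ 1 / ((n : ℝ) + 1) := by positivity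
    linarith

theorem mean (H : ℕ) : ∑ c ∈ Icc 1 H, ∑ p ∈ c.primeFactors, (1 : ℝ) / p ≤ H := by
  have h1 : ∀ c ∈ Icc 1 H, ∑ p ∈ c.primeFactors, (1 : ℝ) / p ≤
      ∑ d ∈ Icc 2 H, if d ∣ c then (1 : ℝ) / d else 0 := by
    intro c hc
    rw [mem_Icc] at hc
    rw [← sum_filter]
    refine sum_le_sum_of_subset_of_nonneg ?_ (fun _ _ _ => by positivity)
    intro p hp
    rw [mem_filter, mem_Icc]
    have hpp := Nat.prime_of_mem_primeFactors hp
    have hd := Nat.dvd_of_mem_primeFactors hp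
    exact ⟨⟨hpp.two_le, (Nat.le_of_dvd (by omega) hd).trans hc.2⟩, hd⟩
  refine (sum_le_sum h1).trans ?_
  rw [sum_comm]
  have h2 : ∀ d ∈ Icc 2 H, ∑ c ∈ Icc 1 H, (if d ∣ c then (1 : ℝ) / d else 0) ≤
      H * ((1 : ℝ) / ((d : ℝ) * d)) := by
    intro d hd
    rw [mem_Icc] at hd
    have hd0 : (0 : ℝ) < d := by exact_mod_cast (by omega : 0 < d)
    rw [← sum_filter, sum_const, nsmul_eq_mul]
    have h3 : ((Icc 1 H).filter (fun c => d ∣ c)).card = H / d := by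
      have h4 : Icc 1 H = Ioc 0 H := by
        ext x; rw [mem_Icc, mem_Ioc]; omega
      rw [h4, Nat.Ioc_filter_dvd_card_eq_div]
    rw [h3]
    have h5 : ((H / d : ℕ) : ℝ) ≤ (H : ℝ) / d := Nat.cast_div_le
    calc ((H / d : ℕ) : ℝ) * (1 / d) ≤ (H : ℝ) / d * (1 / d) :=
          mul_le_mul_of_nonneg_right h5 (by positivity)
      _ = H * ((1 : ℝ) / ((d : ℝ) * d)) := by field_simp
  refine (sum_le_sum h2).trans ?_
  rw [← mul_sum]
  calc (H : ℝ) * ∑ d ∈ Icc 2 H, (1 : ℝ) / ((d : ℝ) * d) ≤ H * 1 :=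
        mul_le_mul_of_nonneg_left (sq_sum H) (Nat.cast_nonneg H)
    _ = H := mul_one _

theorem t_RATIO : ∀ η : ℝ, 0 < η → ∃ M : ℝ, 0 < M ∧ ∀ H : ℕ,
    (((Finset.Icc 1 H).filter (fun c : ℕ => M * (Nat.totient c : ℝ) < c)).card : ℝ) ≤ η * H := by
  intro η hη
  refine ⟨Real.exp (2 / η), Real.exp_pos _, fun H => ?_⟩
  have h1 : ∀ c ∈ (Icc 1 H).filter (fun c : ℕ => Real.exp (2 / η) * (Nat.totient c : ℝ) < c),
      (1 : ℝ) ≤ η * ∑ p ∈ c.primeFactors, (1 : ℝ) / p := by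
    intro c hc
    rw [mem_filter, mem_Icc] at hc
    have h2 := hc.2.trans_le (tot c)
    rw [mul_comm] at h2
    have h3 : (0 : ℝ) < Nat.totient c := by
      exact_mod_cast Nat.totient_pos.2 (by omega)
    have h4 := lt_of_mul_lt_mul_left h2 h3.le
    have h5 := Real.exp_lt_exp.1 h4
    rw [div_lt_iff₀ hη] at h5
    nlinarith
  calc (((Finset.Icc 1 H).filter
        (fun c : ℕ => Real.exp (2 / η) * (Nat.totient c : ℝ) < c)).card : ℝ)
      = ∑ _c ∈ (Icc 1 H).filter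
        (fun c : ℕ => Real.exp (2 / η) * (Nat.totient c : ℝ) < c), (1 : ℝ) := by simp
    _ ≤ ∑ c ∈ (Icc 1 H).filter
        (fun c : ℕ => Real.exp (2 / η) * (Nat.totient c : ℝ) < c),
          η * ∑ p ∈ c.primeFactors, (1 : ℝ) / p := sum_le_sum h1
    _ ≤ ∑ c ∈ Icc 1 H, η * ∑ p ∈ c.primeFactors, (1 : ℝ) / p :=
        sum_le_sum_of_subset_of_nonneg (filter_subset _ _) (fun _ _ _ => by positivity)
    _ = η * ∑ c ∈ Icc 1 H, ∑ p ∈ c.primeFactors, (1 : ℝ) / p := (mul_sum _ _ _).symm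
    _ ≤ η * H := mul_le_mul_of_nonneg_left (mean H) hη.le

end Pool.Agent.Y888.LW
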